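import Mathlib.Algebra.Group.Action.End
import Mathlib.Algebra.Group.Submonoid.MulAction
import Mathlib.Algebra.Group.Action.Pi
import Mathlib.Algebra.Group.Action.Units
import Mathlib.GroupTheory.GroupAction.Defs
import Mathlib.Topology.Homeomorph.Lemmas

/-!
# Automatic continuity and automatic homeomorphicity for closed transformation monoids

`Function.End Ω` is Mathlib's monoid of all maps `Ω → Ω` under composition.
-/

namespace Q202.AcAh

open Topology

variable {Ω : Type*}

/-- The topology of pointwise convergence on the monoid of all maps `Ω → Ω`: the product topology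
with `Ω` discrete. -/
@[reducible] def pointwise (Ω : Type*) : TopologicalSpace (Function.End Ω) :=
  @Pi.topologicalSpace Ω (fun _ => Ω) (fun _ => ⊥)

/-- The subspace topology on a submonoid. -/
@[reducible] def subTop (S : Submonoid (Function.End Ω)) : TopologicalSpace S :=
  TopologicalSpace.induced (fun s : S => (s : Function.End Ω)) (pointwise Ω)

/-- The submonoid `S` of `Ω^Ω` is closed, i.e. a member of the class `𝓜`. -/
def IsClosedMonoid (S : Submonoid (Function.End Ω)) : Prop :=
  IsClosed[pointwise Ω] (S : Set (Function.End Ω))

/-- `S` has automatic continuity with respect to the closed submonoids of `Ω^Ω`: every semigroup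
homomorphism from `S` to a closed submonoid of `Ω^Ω` is continuous. -/
def AutomaticContinuity (S : Submonoid (Function.End Ω)) : Prop :=
  ∀ T : Submonoid (Function.End Ω), IsClosedMonoid T → ∀ φ : S →ₙ* T,
    @Continuous S T (subTop S) (subTop T) φ

/-- `S` has automatic homeomorphicity with respect to the closed submonoids of `Ω^Ω`: every
isomorphism from `S` onto a closed submonoid of `Ω^Ω` is a homeomorphism. -/
def AutomaticHomeomorphicity (S : Submonoid (Function.End Ω)) : Prop :=
  ∀ T : Submonoid (Function.End Ω), IsClosedMonoid T → ∀ φ : S ≃* T,
    @IsHomeomorph S T (subTop S) (subTop T) φ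

/-- `S` is oligomorphic: its group `Sˣ` of invertible elements has only finitely many orbits on
`Ω^n` for every `n ≥ 1`. -/
def Oligomorphic (S : Submonoid (Function.End Ω)) : Prop :=
  ∀ n : ℕ, 1 ≤ n → Finite (MulAction.orbitRel.Quotient Sˣ (Fin n → Ω))

end Q202.AcAh
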