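import Pool.Agent.Q202.AcAh.Defs
import Pool.Agent.Q202.MinTop

namespace Q202.AcAh

open Topology

variable {Ω : Type*}

theorem t2_pointwise : @T2Space (Function.End Ω) (pointwise Ω) := by
  let _ : TopologicalSpace Ω := ⊥
  have : DiscreteTopology Ω := ⟨rfl⟩
  exact (inferInstance : T2Space (Ω → Ω))

theorem continuous_comp_pointwise :
    @Continuous (Function.End Ω × Function.End Ω) (Function.End Ω)
      (@instTopologicalSpaceProd _ _ (pointwise Ω) (pointwise Ω)) (pointwise Ω)
      (fun p => p.1 * p.2) := by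
  let _ : TopologicalSpace Ω := ⊥
  have : DiscreteTopology Ω := ⟨rfl⟩
  have h0 : Continuous fun p : (Ω → Ω) × (Ω → Ω) => fun a => p.1 (p.2 a) := by
    refine continuous_pi fun a => ?_
    rw [continuous_iff_continuousAt]
    rintro ⟨f, g⟩
    have h1 : ∀ᶠ p : (Ω → Ω) × (Ω → Ω) in 𝓝 (f, g), p.1 (p.2 a) = f (g a) := by
      have h2 : ∀ᶠ p : (Ω → Ω) × (Ω → Ω) in 𝓝 (f, g), p.2 a = g a := by
        have hc : Continuous fun p : (Ω → Ω) × (Ω → Ω) => p.2 a :=
          (continuous_apply a).comp continuous_snd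
        have h3 : ∀ᶠ x in 𝓝 (g a), x = g a := by simp
        exact (hc.tendsto (f, g)).eventually h3
      have h3 : ∀ᶠ p : (Ω → Ω) × (Ω → Ω) in 𝓝 (f, g), p.1 (g a) = f (g a) := by
        have hc : Continuous fun p : (Ω → Ω) × (Ω → Ω) => p.1 (g a) :=
          (continuous_apply (g a)).comp continuous_fst
        have h3 : ∀ᶠ x in 𝓝 (f (g a)), x = f (g a) := by simp
        exact (hc.tendsto (f, g)).eventually h3
      filter_upwards [h2, h3] with p hp2 hp3
      rw [hp2, hp3]
    exact (continuousAt_const (y := f (g a))).congr (h1.mono fun p hp => hp.symm)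
  exact h0

theorem mem_nhds_pointwise (f : Function.End Ω) (U : Set (Function.End Ω)) :
    U ∈ @nhds _ (pointwise Ω) f ↔ ∃ F : Finset Ω, ∀ g : Function.End Ω,
      (∀ a ∈ F, g a = f a) → g ∈ U := by
  have h := Q202.MinTop.mem_nhds_pw (S := Function.End Ω) (fun g => g) f U
  have h2 : Q202.MinTop.pw (S := Function.End Ω) (Ω := Ω) (fun g => g) = pointwise Ω :=
    @induced_id _ (pointwise Ω)
  rw [h2] at h
  exact h

theorem mem_nhds_subTop (S : Submonoid (Function.End Ω)) (s : S) (U : Set S) :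
    U ∈ @nhds _ (subTop S) s ↔ ∃ F : Finset Ω, ∀ t : S,
      (∀ a ∈ F, (t : Function.End Ω) a = (s : Function.End Ω) a) → t ∈ U :=
  Q202.MinTop.mem_nhds_pw (S := S) (fun g => (g : Function.End Ω)) s U

/-- Closedness in combinatorial terms. -/
theorem isClosedMonoid_iff (S : Submonoid (Function.End Ω)) :
    IsClosedMonoid S ↔ ∀ f : Function.End Ω,
      (∀ F : Finset Ω, ∃ s : S, ∀ a ∈ F, (s : Function.End Ω) a = f a) → f ∈ S := by
  let _ : TopologicalSpace (Function.End Ω) := pointwise Ω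
  constructor
  · intro h f hf
    have hcl : IsClosed (S : Set (Function.End Ω)) := h
    have h1 : f ∈ closure (S : Set (Function.End Ω)) := by
      rw [mem_closure_iff_nhds]
      intro U hU
      obtain ⟨F, hF⟩ := (mem_nhds_pointwise f U).1 hU
      obtain ⟨s, hs⟩ := hf F
      exact ⟨s, hF _ hs, s.2⟩
    rw [hcl.closure_eq] at h1
    exact h1
  · intro h
    change IsClosed (S : Set (Function.End Ω))
    rw [← closure_subset_iff_isClosed]
    intro f hf
    rw [mem_closure_iff_nhds] at hf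
    refine h f (fun F => ?_)
    obtain ⟨g, hg1, hg2⟩ := hf {g | ∀ a ∈ F, g a = f a}
      ((mem_nhds_pointwise f _).2 ⟨F, fun g hg => hg⟩)
    exact ⟨⟨g, hg2⟩, hg1⟩

end Q202.AcAh
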