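import Pool.Agent.Q202.AcAh.Defs
import Pool.Agent.Q202.AcAh.Lemmas
import Mathlib.Data.ENat.Basic
import Mathlib.Data.ENat.Lattice
import Mathlib.Data.Countable.Basic
import Mathlib.Algebra.Group.Submonoid.Operations
import Mathlib.Data.Countable.Defs

namespace Q202.AcAh

open Topology

/-- Truncated subtraction `c - d` with `d ∈ ℕ ∪ {∞}`. -/
noncomputable def tsb (d : ℕ∞) (c : ℕ) : ℕ := ((c : ℕ∞) - d).toNat

theorem tsb_coe (n c : ℕ) : tsb (n : ℕ∞) c = c - n := by
  unfold tsb
  norm_cast

theorem tsb_top (c : ℕ) : tsb ⊤ c = 0 := by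
  unfold tsb
  simp

theorem tsb_tsb (a b : ℕ∞) (c : ℕ) : tsb (a + b) c = tsb a (tsb b c) := by
  induction a using ENat.recTopCoe with
  | top => rw [top_add, tsb_top, tsb_top]
  | coe a =>
    induction b using ENat.recTopCoe with
    | top => rw [add_top, tsb_top, tsb_coe]; simp
    | coe b =>
      rw [← Nat.cast_add, tsb_coe, tsb_coe, tsb_coe]
      omega

/-- The translation action of `ℕ∞` on itself, transported to `Ω`. -/
noncomputable def transl {Ω : Type*} (e : Ω ≃ ℕ∞) : Multiplicative ℕ∞ →* Function.End Ω where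
  toFun d := fun x => e.symm (Multiplicative.toAdd d + e x)
  map_one' := by
    funext x
    change e.symm (_ + e x) = x
    simp
  map_mul' a b := by
    funext x
    change _ = e.symm (_ + e (e.symm _))
    simp [add_assoc]

/-- The action of `ℕ∞` on `ℕ` by truncated subtraction, transported to `Ω`. -/
noncomputable def trunc {Ω : Type*} (e : Ω ≃ ℕ) : Multiplicative ℕ∞ →* Function.End Ω where
  toFun d := fun x => e.symm (tsb (Multiplicative.toAdd d) (e x))
  map_one' := by
    funext x
    change e.symm (tsb ((0 : ℕ) : ℕ∞) (e x)) = x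
    rw [tsb_coe]
    simp
  map_mul' a b := by
    funext x
    change _ = e.symm (tsb _ (e (e.symm _)))
    rw [e.apply_symm_apply, toAdd_mul, tsb_tsb]

theorem transl_apply {Ω : Type*} (e : Ω ≃ ℕ∞) (d : Multiplicative ℕ∞) (x : Ω) :
    transl e d x = e.symm (Multiplicative.toAdd d + e x) := rfl

theorem trunc_apply {Ω : Type*} (e : Ω ≃ ℕ) (d : Multiplicative ℕ∞) (x : Ω) :
    trunc e d x = e.symm (tsb (Multiplicative.toAdd d) (e x)) := rfl

theorem transl_injective {Ω : Type*} (e : Ω ≃ ℕ∞) : Function.Injective (transl e) := by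
  intro a b h
  have := congrFun h (e.symm 0)
  rw [transl_apply, transl_apply] at this
  simpa using this

theorem trunc_injective {Ω : Type*} (e : Ω ≃ ℕ) : Function.Injective (trunc e) := by
  intro a b h
  have h1 : ∀ c : ℕ, tsb (Multiplicative.toAdd a) c = tsb (Multiplicative.toAdd b) c := by
    intro c
    have := congrFun h (e.symm c)
    rw [trunc_apply, trunc_apply] at this
    simpa using this
  apply Multiplicative.toAdd.injective
  generalize Multiplicative.toAdd a = a at h1
  generalize Multiplicative.toAdd b = b at h1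
  induction a using ENat.recTopCoe with
  | top =>
    induction b using ENat.recTopCoe with
    | top => rfl
    | coe b =>
      have := h1 (b + 1)
      rw [tsb_top, tsb_coe] at this
      omega
  | coe a =>
    induction b using ENat.recTopCoe with
    | top =>
      have := h1 (a + 1)
      rw [tsb_top, tsb_coe] at this
      omega
    | coe b =>
      have h2 := h1 (a + 1)
      have h3 := h1 (b + 1)
      rw [tsb_coe, tsb_coe] at h2 h3
      have : a = b := by omega
      rw [this]

theorem transl_closed {Ω : Type*} (e : Ω ≃ ℕ∞) :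
    IsClosedMonoid (MonoidHom.mrange (transl e)) := by
  classical
  rw [isClosedMonoid_iff]
  intro f hf
  refine ⟨Multiplicative.ofAdd (e (f (e.symm 0))), ?_⟩
  funext x
  obtain ⟨⟨_, ⟨d, rfl⟩⟩, hd⟩ := hf {e.symm 0, x}
  have h1 := hd (e.symm 0) (by simp)
  have h2 := hd x (by simp)
  change transl e d _ = _ at h1 h2
  rw [transl_apply] at h1 h2 ⊢
  rw [← h1, ← h2]
  simp

theorem trunc_closed {Ω : Type*} (e : Ω ≃ ℕ) :
    IsClosedMonoid (MonoidHom.mrange (trunc e)) := by
  classical
  rw [isClosedMonoid_iff]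
  intro f hf
  by_cases h0 : ∀ x, e (f x) = 0
  · refine ⟨Multiplicative.ofAdd ⊤, ?_⟩
    funext x
    rw [trunc_apply]
    change e.symm (tsb ⊤ _) = _
    rw [tsb_top, ← h0 x, e.symm_apply_apply]
  · push Not at h0
    obtain ⟨x0, hx0⟩ := h0
    refine ⟨Multiplicative.ofAdd ((e x0 - e (f x0) : ℕ) : ℕ∞), ?_⟩
    funext x
    obtain ⟨⟨_, ⟨d, rfl⟩⟩, hd⟩ := hf {x0, x}
    have h1 := hd x0 (by simp)
    have h2 := hd x (by simp)
    change trunc e d _ = _ at h1 h2
    rw [trunc_apply] at h1 h2 ⊢
    change e.symm (tsb ((e x0 - e (f x0) : ℕ) : ℕ∞) (e x)) = f x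
    rw [← h2]
    generalize Multiplicative.toAdd d = d at h1 h2
    induction d using ENat.recTopCoe with
    | top =>
      exfalso
      rw [tsb_top] at h1
      apply hx0
      rw [← h1, e.apply_symm_apply]
    | coe d =>
      rw [tsb_coe] at h1
      have h3 : e x0 - d = e (f x0) := by rw [← h1, e.apply_symm_apply]
      rw [tsb_coe, tsb_coe]
      congr 1
      omega

theorem transl_discrete {Ω : Type*} (e : Ω ≃ ℕ∞) (s : MonoidHom.mrange (transl e)) :
    {s} ∈ @nhds _ (subTop (MonoidHom.mrange (transl e))) s := by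
  rw [mem_nhds_subTop]
  refine ⟨{e.symm 0}, ?_⟩
  rintro ⟨_, ⟨d, rfl⟩⟩ ht
  obtain ⟨_, ⟨d', rfl⟩⟩ := s
  have h1 := ht (e.symm 0) (by simp)
  change transl e d _ = transl e d' _ at h1
  rw [transl_apply, transl_apply] at h1
  have h2 : d = d' := by simpa using h1
  subst h2
  rfl

/-- The constant map of `trunc` is not isolated. -/
theorem trunc_not_discrete {Ω : Type*} (e : Ω ≃ ℕ) :
    {(⟨trunc e (Multiplicative.ofAdd ⊤), ⟨_, rfl⟩⟩ : MonoidHom.mrange (trunc e))} ∉
      @nhds _ (subTop (MonoidHom.mrange (trunc e))) ⟨trunc e (Multiplicative.ofAdd ⊤), ⟨_, rfl⟩⟩ := by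
  classical
  rw [mem_nhds_subTop]
  rintro ⟨F, hF⟩
  have h1 := hF ⟨trunc e (Multiplicative.ofAdd ((F.sup e : ℕ) : ℕ∞)), ⟨_, rfl⟩⟩ (by
    intro a ha
    change trunc e _ a = trunc e _ a
    rw [trunc_apply, trunc_apply]
    change e.symm (tsb ((F.sup e : ℕ) : ℕ∞) (e a)) = e.symm (tsb ⊤ (e a))
    rw [tsb_coe, tsb_top]
    congr 1
    have : e a ≤ F.sup e := Finset.le_sup ha
    omega)
  have h2 := congrArg Subtype.val (Set.mem_singleton_iff.1 h1)
  have h3 := trunc_injective e h2
  exact ENat.natCast_ne_top _ (Multiplicative.ofAdd.injective h3)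

end Q202.AcAh
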